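import Pool.Agent.TH893.GS.Sqf

set_option autoImplicit false

/-! Quadratic forms at random signs, and the variance of the Möbius function over random subsets of a window. -/

namespace Pool.Agent.TH606.GC

open Finset
open Pool.Agent.TH893.GS (mu mu_abs c0 sqf_avg)

/-- `+1` on `A`, `-1` outside -/
noncomputable def sg (A : Finset ℕ) (h : ℕ) : ℝ := if h ∈ A then 1 else -1

lemma sg_sq (A : Finset ℕ) (h : ℕ) : sg A h * sg A h = 1 := by
  unfold sg; split_ifs <;> norm_num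

lemma sg_ins_self (A : Finset ℕ) (x : ℕ) : sg (insert x A) x = 1 := by simp [sg]

lemma sg_not {A S : Finset ℕ} {x : ℕ} (hA : A ∈ S.powerset) (hx : x ∉ S) : sg A x = -1 := by
  have : x ∉ A := fun h => hx ((mem_powerset.1 hA) h)
  simp [sg, this]

lemma sg_ins {A : Finset ℕ} {x b : ℕ} (hb : b ≠ x) : sg (insert x A) b = sg A b := by
  simp [sg, hb]

lemma lin2 (S : Finset ℕ) (c : ℕ → ℝ) :
    ∑ A ∈ S.powerset, (∑ b ∈ S, sg A b * c b) ^ 2 = 2 ^ S.card * ∑ b ∈ S, c b ^ 2 := by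
  induction S using Finset.induction_on with
  | empty => simp
  | insert x S hx ih =>
    rw [sum_powerset_insert hx, card_insert_of_notMem hx, sum_insert hx, ← sum_add_distrib]
    have h1 : ∀ A ∈ S.powerset, (∑ b ∈ insert x S, sg A b * c b) ^ 2 +
        (∑ b ∈ insert x S, sg (insert x A) b * c b) ^ 2 = 2 * c x ^ 2 + 2 * (∑ b ∈ S, sg A b * c b) ^ 2 := by
      intro A hA
      rw [sum_insert hx, sum_insert hx, sg_not hA hx, sg_ins_self]
      have e : ∑ b ∈ S, sg (insert x A) b * c b = ∑ b ∈ S, sg A b * c b :=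
        sum_congr rfl fun b hb => by rw [sg_ins (ne_of_mem_of_not_mem hb hx)]
      rw [e]
      ring
    rw [sum_congr rfl h1, sum_add_distrib, ← mul_sum (s := S.powerset) (a := (2 : ℝ)), ← mul_sum, ih]
    simp only [sum_const, card_powerset, nsmul_eq_mul]
    push_cast
    ring

lemma quad2 (S : Finset ℕ) (C : ℕ → ℕ → ℝ) (hC : ∀ a b, C a b = C b a) :
    ∑ A ∈ S.powerset, (∑ a ∈ S, ∑ b ∈ S, sg A a * sg A b * C a b - ∑ a ∈ S, C a a) ^ 2 ≤
      2 ^ S.card * (2 * ∑ a ∈ S, ∑ b ∈ S, C a b ^ 2) := by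
  induction S using Finset.induction_on with
  | empty => simp
  | insert x S hx ih =>
    rw [sum_powerset_insert hx, card_insert_of_notMem hx, ← sum_add_distrib]
    have hexp : ∀ s : ℕ → ℝ, s x * s x = 1 → ∑ a ∈ insert x S, ∑ b ∈ insert x S, s a * s b * C a b -
        ∑ a ∈ insert x S, C a a = (∑ a ∈ S, ∑ b ∈ S, s a * s b * C a b - ∑ a ∈ S, C a a) +
          2 * s x * ∑ b ∈ S, s b * C x b := by
      intro s hs
      rw [sum_insert hx, sum_insert hx, sum_insert hx]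
      have e1 : ∑ a ∈ S, ∑ b ∈ insert x S, s a * s b * C a b =
          ∑ a ∈ S, s a * s x * C a x + ∑ a ∈ S, ∑ b ∈ S, s a * s b * C a b := by
        rw [← sum_add_distrib]
        exact sum_congr rfl fun a _ => sum_insert hx
      have e2 : ∑ a ∈ S, s a * s x * C a x = s x * ∑ b ∈ S, s b * C x b := by
        rw [mul_sum]
        exact sum_congr rfl fun a _ => by rw [hC a x]; ring
      have e3 : ∑ b ∈ S, s x * s b * C x b = s x * ∑ b ∈ S, s b * C x b := by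
        rw [mul_sum]
        exact sum_congr rfl fun a _ => by ring
      rw [e1, e2, e3, hs]
      ring
    have h1 : ∀ A ∈ S.powerset,
        (∑ a ∈ insert x S, ∑ b ∈ insert x S, sg A a * sg A b * C a b - ∑ a ∈ insert x S, C a a) ^ 2 +
        (∑ a ∈ insert x S, ∑ b ∈ insert x S, sg (insert x A) a * sg (insert x A) b * C a b -
          ∑ a ∈ insert x S, C a a) ^ 2 =
        2 * (∑ a ∈ S, ∑ b ∈ S, sg A a * sg A b * C a b - ∑ a ∈ S, C a a) ^ 2 +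
          8 * (∑ b ∈ S, sg A b * C x b) ^ 2 := by
      intro A hA
      rw [hexp (sg A) (sg_sq A x), hexp (sg (insert x A)) (sg_sq _ x), sg_not hA hx, sg_ins_self]
      have e : ∀ b ∈ S, sg (insert x A) b = sg A b := fun b hb => sg_ins (ne_of_mem_of_not_mem hb hx)
      have e1 : ∑ b ∈ S, sg (insert x A) b * C x b = ∑ b ∈ S, sg A b * C x b :=
        sum_congr rfl fun b hb => by rw [e b hb]
      have e2 : ∑ a ∈ S, ∑ b ∈ S, sg (insert x A) a * sg (insert x A) b * C a b =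
          ∑ a ∈ S, ∑ b ∈ S, sg A a * sg A b * C a b :=
        sum_congr rfl fun a ha => sum_congr rfl fun b hb => by rw [e a ha, e b hb]
      rw [e1, e2]
      ring
    rw [sum_congr rfl h1, sum_add_distrib, ← mul_sum, ← mul_sum, lin2 S (fun b => C x b)]
    rw [sum_insert hx]
    have e4 : ∑ a ∈ S, ∑ b ∈ insert x S, C a b ^ 2 = ∑ a ∈ S, C x a ^ 2 + ∑ a ∈ S, ∑ b ∈ S, C a b ^ 2 := by
      rw [← sum_add_distrib]
      exact sum_congr rfl fun a _ => by rw [sum_insert hx, hC a x]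
    rw [e4, sum_insert hx]
    have h5 : (0 : ℝ) ≤ 2 ^ S.card := by positivity
    have h6 : 0 ≤ C x x ^ 2 := sq_nonneg _
    have h7 := mul_nonneg h5 h6
    rw [pow_succ]
    nlinarith [ih]

/-- Chebyshev -/
lemma cheb (S : Finset (Finset ℕ)) (F : Finset ℕ → ℝ) (P : Finset ℕ → Prop) [DecidablePred P] {t B : ℝ}
    (hP : ∀ A ∈ S, P A → t ≤ F A ^ 2) (hB : ∑ A ∈ S, F A ^ 2 ≤ B) : ((S.filter P).card : ℝ) * t ≤ B := by
  calc ((S.filter P).card : ℝ) * t = ∑ A ∈ S.filter P, t := by rw [sum_const, nsmul_eq_mul]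
    _ ≤ ∑ A ∈ S.filter P, F A ^ 2 := sum_le_sum fun A hA => by
        rw [mem_filter] at hA
        exact hP A hA.1 hA.2
    _ ≤ ∑ A ∈ S, F A ^ 2 := sum_le_sum_of_subset_of_nonneg (filter_subset _ _) fun _ _ _ => sq_nonneg _
    _ ≤ B := hB

/-- `T T* T 1` is small compared with `T 1` -/
lemma cross (I S : Finset ℕ) (u : ℕ → ℕ → ℝ) (w : ℕ → ℝ) {G : ℝ} (hG : 0 ≤ G)
    (hF : ∑ a ∈ S, ∑ b ∈ S, (∑ n ∈ I, u a n * u b n) ^ 2 ≤ G ^ 2) :
    ∑ a ∈ S, (∑ n ∈ I, w n * u a n) ^ 2 ≤ (∑ n ∈ I, w n ^ 2) * G := by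
  obtain ⟨c, hc⟩ : ∃ c : ℕ → ℝ, ∀ a, c a = ∑ n ∈ I, w n * u a n := ⟨_, fun _ => rfl⟩
  have h0 : ∑ a ∈ S, (∑ n ∈ I, w n * u a n) ^ 2 = ∑ a ∈ S, c a ^ 2 := sum_congr rfl fun a _ => by rw [hc]
  rw [h0]
  set Z := ∑ a ∈ S, c a ^ 2 with hZ
  have hZ0 : 0 ≤ Z := sum_nonneg fun _ _ => sq_nonneg _
  have hV0 : 0 ≤ ∑ n ∈ I, w n ^ 2 := sum_nonneg fun _ _ => sq_nonneg _
  -- Z = ∑ w n * ∑ c a u a n
  have h1 : Z = ∑ n ∈ I, w n * ∑ a ∈ S, c a * u a n := by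
    rw [hZ]
    have : ∀ a ∈ S, c a ^ 2 = ∑ n ∈ I, w n * (c a * u a n) := by
      intro a _
      rw [sq]
      nth_rewrite 2 [hc a]
      rw [mul_sum]
      exact sum_congr rfl fun n _ => by ring
    rw [sum_congr rfl this, sum_comm]
    exact sum_congr rfl fun n _ => by rw [mul_sum]
  have h2 : Z ^ 2 ≤ (∑ n ∈ I, w n ^ 2) * ∑ n ∈ I, (∑ a ∈ S, c a * u a n) ^ 2 := by
    rw [h1]
    exact sum_mul_sq_le_sq_mul_sq _ _ _
  have h3 : ∑ n ∈ I, (∑ a ∈ S, c a * u a n) ^ 2 = ∑ a ∈ S, ∑ b ∈ S, (c a * c b) * ∑ n ∈ I, u a n * u b n := by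
    have : ∀ n ∈ I, (∑ a ∈ S, c a * u a n) ^ 2 = ∑ a ∈ S, ∑ b ∈ S, (c a * c b) * (u a n * u b n) := by
      intro n _
      rw [sq, sum_mul_sum]
      exact sum_congr rfl fun a _ => sum_congr rfl fun b _ => by ring
    rw [sum_congr rfl this, sum_comm]
    refine sum_congr rfl fun a _ => ?_
    rw [sum_comm]
    exact sum_congr rfl fun b _ => by rw [mul_sum]
  have h4 : (∑ a ∈ S, ∑ b ∈ S, (c a * c b) * ∑ n ∈ I, u a n * u b n) ^ 2 ≤ Z ^ 2 * G ^ 2 := by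
    rw [← sum_product', ]
    refine (sum_mul_sq_le_sq_mul_sq (S ×ˢ S) (fun x => c x.1 * c x.2) (fun x => ∑ n ∈ I, u x.1 n * u x.2 n)).trans ?_
    have e1 : ∑ x ∈ S ×ˢ S, (c x.1 * c x.2) ^ 2 = Z ^ 2 := by
      rw [sum_product, sq, hZ, sum_mul_sum]
      exact sum_congr rfl fun a _ => sum_congr rfl fun b _ => by ring
    rw [e1]
    apply mul_le_mul_of_nonneg_left _ (sq_nonneg _)
    rw [sum_product]
    exact hF
  have h5 : ∑ a ∈ S, ∑ b ∈ S, (c a * c b) * ∑ n ∈ I, u a n * u b n ≤ Z * G := by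
    rw [← mul_pow] at h4
    exact abs_le_of_sq_le_sq' h4 (mul_nonneg hZ0 hG) |>.2
  have h6 : Z * Z ≤ ((∑ n ∈ I, w n ^ 2) * G) * Z := by
    rw [h3] at h2
    calc Z * Z = Z ^ 2 := by ring
      _ ≤ (∑ n ∈ I, w n ^ 2) * (Z * G) := h2.trans (mul_le_mul_of_nonneg_left h5 hV0)
      _ = _ := by ring
  rcases hZ0.lt_or_eq with h | h
  · exact le_of_mul_le_mul_right h6 h
  · rw [← h]; exact mul_nonneg hV0 hG

end Pool.Agent.TH606.GC

namespace Pool.Agent.TH606.GC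

open Finset
open Pool.Agent.TH893.GS (mu mu_abs c0 sqf_avg)
open Pool.Agent.TH823.MRS (pol nu nu_eq Sm mu_E mu_le)
open Pool.Agent.H373R2.T7 (exI)

/-- correlation of two entries of the window -/
noncomputable def Cr (Y X a b : ℕ) : ℝ := ∑ n ∈ Ioc Y X, mu (n + a) * mu (n + b)

lemma Cr_symm (Y X a b : ℕ) : Cr Y X a b = Cr Y X b a := sum_congr rfl fun _ _ => mul_comm _ _

lemma Cr_le {Y X N : ℕ} (hX : X ≤ N) (a b : ℕ) : |Cr Y X a b| ≤ N := by
  unfold Cr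
  refine (abs_sum_le_sum_abs _ _).trans ?_
  calc ∑ n ∈ Ioc Y X, |mu (n + a) * mu (n + b)| ≤ ∑ n ∈ Ioc Y X, (1 : ℝ) := by
        apply sum_le_sum
        intro n _
        rw [abs_mul]
        exact mul_le_one₀ (mu_abs _) (abs_nonneg _) (mu_abs _)
    _ = ((X - Y : ℕ) : ℝ) := by rw [sum_const, nsmul_eq_mul, mul_one, Nat.card_Ioc]
    _ ≤ N := by exact_mod_cast (by omega : X - Y ≤ N)

lemma corr {δ : ℝ} (hδ : 0 < δ) : ∃ H₀ : ℕ, ∀ N H : ℕ, H₀ ≤ H → H ≤ N → ∀ b ∈ Icc 1 H, ∀ Y X : ℕ, Y ≤ X → X ≤ N →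
    ∀ [DecidablePred fun a => ¬ |Cr Y X a b| ≤ 2 * δ * N],
    (((Icc 1 H).filter (fun a => ¬ |Cr Y X a b| ≤ 2 * δ * N)).card : ℝ) ≤ δ * H := by
  classical
  obtain ⟨H₁, N₁, h1⟩ := pol (fun n => ((ArithmeticFunction.moebius n : ℤ) : ℂ)) mu_le mu_E 1 1 δ hδ
    (Polynomial.X : Polynomial ℤ) (by simp) 1
  refine ⟨H₁ + N₁ + 1, fun N H hH hHN b _ Y X hYX hX _ => ?_⟩
  have h4 := h1 N H (by omega) (by omega) hHN H (by simp) (by simp) (fun _ => 1) (fun _ => 0)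
      (fun _ n => ((mu (n + b) : ℝ) : ℂ)) (by simp) (by simp) (by
        intro _ n
        rw [Complex.norm_real, Real.norm_eq_abs]
        exact mu_abs _)
  rw [nu_eq] at h4
  refine le_trans ?_ h4
  norm_cast
  apply card_le_card
  intro v hv
  rw [mem_filter] at hv ⊢
  refine ⟨hv.1, fun hcon => hv.2 ?_⟩
  have key : ∀ Z : ℕ, Z ≤ N → |∑ n ∈ Icc 1 Z, mu (n + v) * mu (n + b)| ≤ δ * N := by
    intro Z hZ
    have h5 := hcon 0 Z (by simpa using hZ)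
    have e : ∑ n ∈ Icc 1 Z, ((mu (n + b) : ℝ) : ℂ) * exI (fun n => ((ArithmeticFunction.moebius n : ℤ) : ℂ))
        (((1 : ℕ) : ℤ) * (n : ℤ) + 0 + (Polynomial.X : Polynomial ℤ).eval (v : ℤ)) =
        ((∑ n ∈ Icc 1 Z, mu (n + v) * mu (n + b) : ℝ) : ℂ) := by
      push_cast
      apply sum_congr rfl
      intro n hn
      rw [mem_Icc] at hn
      unfold exI
      rw [Polynomial.eval_X, if_pos (by omega)]
      have : ((1 : ℤ) * (n : ℤ) + 0 + (v : ℤ)).toNat = n + v := by omega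
      rw [this]
      unfold mu
      push_cast
      ring
    rw [e, Complex.norm_real, Real.norm_eq_abs] at h5
    exact h5
  have e2 : ∀ Z : ℕ, Icc 1 Z = Ioc 0 Z := fun z => by ext; simp [Nat.succ_le_iff]
  have h6 := sum_Ioc_consecutive (fun n => mu (n + v) * mu (n + b)) (Nat.zero_le Y) hYX
  have h7 := key Y (hYX.trans hX)
  have h8 := key X hX
  rw [e2] at h7 h8
  have h9 : Cr Y X v b = ∑ n ∈ Ioc 0 X, mu (n + v) * mu (n + b) - ∑ n ∈ Ioc 0 Y, mu (n + v) * mu (n + b) := by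
    rw [← h6]
    unfold Cr
    ring
  rw [h9]
  rw [abs_le] at h7 h8 ⊢
  constructor <;> linarith

lemma frob {δ : ℝ} (hδ : 0 < δ) (hδ1 : δ ≤ 1) : ∃ H₀ : ℕ, ∀ N H : ℕ, H₀ ≤ H → H ≤ N → ∀ Y X : ℕ, Y ≤ X → X ≤ N →
    ∑ a ∈ Icc 1 H, ∑ b ∈ Icc 1 H, Cr Y X a b ^ 2 ≤ 5 * δ * (H * N) ^ 2 := by
  classical
  obtain ⟨H₀, h0⟩ := corr hδ
  refine ⟨H₀, fun N H hH hHN Y X hYX hX => ?_⟩
  rw [sum_comm]
  have h1 : ∀ b ∈ Icc 1 H, ∑ a ∈ Icc 1 H, Cr Y X a b ^ 2 ≤ 5 * δ * H * N ^ 2 := by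
    intro b hb
    have h2 := h0 N H hH hHN b hb Y X hYX hX
    rw [← sum_filter_add_sum_filter_not (Icc 1 H) (fun a => |Cr Y X a b| ≤ 2 * δ * N)]
    have h3 : ∑ a ∈ (Icc 1 H).filter (fun a => |Cr Y X a b| ≤ 2 * δ * N), Cr Y X a b ^ 2 ≤
        H * (2 * δ * N) ^ 2 := by
      calc ∑ a ∈ (Icc 1 H).filter (fun a => |Cr Y X a b| ≤ 2 * δ * N), Cr Y X a b ^ 2 ≤
            ∑ a ∈ (Icc 1 H).filter (fun a => |Cr Y X a b| ≤ 2 * δ * N), (2 * δ * N) ^ 2 := by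
            apply sum_le_sum
            intro a ha
            rw [mem_filter] at ha
            rw [← sq_abs]
            exact pow_le_pow_left₀ (abs_nonneg _) ha.2 2
        _ = ((Icc 1 H).filter (fun a => |Cr Y X a b| ≤ 2 * δ * N)).card * (2 * δ * N) ^ 2 := by
            rw [sum_const, nsmul_eq_mul]
        _ ≤ _ := by
            apply mul_le_mul_of_nonneg_right _ (sq_nonneg _)
            have := card_filter_le (Icc 1 H) (fun a => |Cr Y X a b| ≤ 2 * δ * N)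
            rw [Nat.card_Icc, Nat.add_sub_cancel] at this
            exact_mod_cast this
    have h4 : ∑ a ∈ (Icc 1 H).filter (fun a => ¬ |Cr Y X a b| ≤ 2 * δ * N), Cr Y X a b ^ 2 ≤
        δ * H * N ^ 2 := by
      calc ∑ a ∈ (Icc 1 H).filter (fun a => ¬ |Cr Y X a b| ≤ 2 * δ * N), Cr Y X a b ^ 2 ≤
            ∑ a ∈ (Icc 1 H).filter (fun a => ¬ |Cr Y X a b| ≤ 2 * δ * N), (N : ℝ) ^ 2 := by
            apply sum_le_sum
            intro a _
            rw [← sq_abs]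
            exact pow_le_pow_left₀ (abs_nonneg _) (Cr_le hX a b) 2
        _ = ((Icc 1 H).filter (fun a => ¬ |Cr Y X a b| ≤ 2 * δ * N)).card * (N : ℝ) ^ 2 := by
            rw [sum_const, nsmul_eq_mul]
        _ ≤ _ := mul_le_mul_of_nonneg_right h2 (sq_nonneg _)
    have h5 : δ ^ 2 ≤ δ := by nlinarith
    have h6 : (0 : ℝ) ≤ H * N ^ 2 := by positivity
    nlinarith [mul_le_mul_of_nonneg_right h5 h6]
  calc ∑ b ∈ Icc 1 H, ∑ a ∈ Icc 1 H, Cr Y X a b ^ 2 ≤ ∑ b ∈ Icc 1 H, 5 * δ * H * (N : ℝ) ^ 2 := sum_le_sum h1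
    _ = _ := by
        rw [sum_const, Nat.card_Icc, Nat.add_sub_cancel, nsmul_eq_mul]
        ring

/-- sum of the squares with signs -/
lemma Q_eq (A : Finset ℕ) (Y X H : ℕ) : ∑ n ∈ Ioc Y X, (∑ h ∈ Icc 1 H, sg A h * mu (n + h)) ^ 2 =
    ∑ a ∈ Icc 1 H, ∑ b ∈ Icc 1 H, sg A a * sg A b * Cr Y X a b := by
  have : ∀ n ∈ Ioc Y X, (∑ h ∈ Icc 1 H, sg A h * mu (n + h)) ^ 2 =
      ∑ a ∈ Icc 1 H, ∑ b ∈ Icc 1 H, sg A a * sg A b * (mu (n + a) * mu (n + b)) := by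
    intro n _
    rw [sq, sum_mul_sum]
    exact sum_congr rfl fun a _ => sum_congr rfl fun b _ => by ring
  rw [sum_congr rfl this, sum_comm]
  refine sum_congr rfl fun a _ => ?_
  rw [sum_comm]
  exact sum_congr rfl fun b _ => by unfold Cr; rw [mul_sum]

lemma diag {κ : ℝ} (hκ : 0 < κ) : ∃ H₀ : ℕ, ∀ N H : ℕ, H₀ ≤ H → H ≤ N → ∀ Y X : ℕ, Y ≤ X → X ≤ N →
    |∑ a ∈ Icc 1 H, Cr Y X a a - c0 * H * (X - Y)| ≤ κ * (H * N) := by
  obtain ⟨H₀, h0⟩ := sqf_avg hκ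
  refine ⟨H₀, fun N H hH hHN Y X hYX hX => ?_⟩
  have h1 := h0 N H hH hHN
  have e : ∑ a ∈ Icc 1 H, Cr Y X a a - c0 * H * (X - Y) =
      ∑ n ∈ Ioc Y X, ∑ v ∈ Icc 1 H, (mu (n + v) ^ 2 - c0) := by
    unfold Cr
    rw [sum_comm]
    simp only [sum_sub_distrib, sum_const, Nat.card_Icc, Nat.card_Ioc, Nat.add_sub_cancel, nsmul_eq_mul]
    rw [Nat.cast_sub hYX]
    have : ∑ y ∈ Ioc Y X, ∑ x ∈ Icc 1 H, mu (y + x) * mu (y + x) = ∑ x ∈ Ioc Y X, ∑ x_1 ∈ Icc 1 H, mu (x + x_1) ^ 2 :=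
      sum_congr rfl fun a _ => sum_congr rfl fun b _ => by ring
    rw [this]
    ring
  rw [e]
  refine (abs_sum_le_sum_abs _ _).trans ?_
  refine le_trans (sum_le_sum_of_subset_of_nonneg ?_ fun _ _ _ => abs_nonneg _) (h1.trans (le_of_eq (by ring)))
  intro n hn
  rw [mem_Ioc] at hn
  rw [mem_Icc]
  omega

/-- the sum over the part `A` of the window -/
lemma split_sum {A : Finset ℕ} {H : ℕ} (hA : A ∈ (Icc 1 H).powerset) (n : ℕ) :
    2 * ∑ h ∈ A, mu (n + h) = ∑ h ∈ Icc 1 H, mu (n + h) + ∑ h ∈ Icc 1 H, sg A h * mu (n + h) := by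
  rw [← sum_add_distrib]
  have h1 : ∑ h ∈ A, mu (n + h) = ∑ h ∈ Icc 1 H, (if h ∈ A then mu (n + h) else 0) := by
    rw [← sum_filter]
    congr 1
    ext h
    rw [mem_filter]
    exact ⟨fun hh => ⟨(mem_powerset.1 hA) hh, hh⟩, fun hh => hh.2⟩
  rw [h1, mul_sum]
  apply sum_congr rfl
  intro h _
  unfold sg
  split_ifs <;> ring

open Classical in
/-- the number of the subsets of `[1, H]` with a property -/
noncomputable def cnt (H : ℕ) (P : Finset ℕ → Prop) : ℝ := (((Icc 1 H).powerset.filter P).card : ℝ)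

lemma cheb' {H : ℕ} (F : Finset ℕ → ℝ) (P : Finset ℕ → Prop) {t B : ℝ}
    (hP : ∀ A ∈ (Icc 1 H).powerset, P A → t ≤ F A ^ 2) (hB : ∑ A ∈ (Icc 1 H).powerset, F A ^ 2 ≤ B) :
    cnt H P * t ≤ B := by
  classical
  unfold cnt
  exact cheb _ F P hP hB

lemma cnt_or {H : ℕ} {P Q R : Finset ℕ → Prop} (h : ∀ A ∈ (Icc 1 H).powerset, P A → Q A ∨ R A) :
    cnt H P ≤ cnt H Q + cnt H R := by
  classical
  unfold cnt
  have h1 : (Icc 1 H).powerset.filter P ⊆ (Icc 1 H).powerset.filter Q ∪ (Icc 1 H).powerset.filter R := by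
    intro A hA
    rw [mem_filter] at hA
    rw [mem_union, mem_filter, mem_filter]
    rcases h A hA.1 hA.2 with h2 | h2
    · exact Or.inl ⟨hA.1, h2⟩
    · exact Or.inr ⟨hA.1, h2⟩
  exact_mod_cast (card_le_card h1).trans (card_union_le _ _)

/-- the sum of the squares over `n` in `(Y, X]` of the sum with signs -/
noncomputable def QQ (H Y X : ℕ) (A : Finset ℕ) : ℝ := ∑ n ∈ Ioc Y X, (∑ h ∈ Icc 1 H, sg A h * mu (n + h)) ^ 2

/-- the sum of the squares over `n` in `(Y, X]` of the sum over `A` -/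
noncomputable def SS (Y X : ℕ) (A : Finset ℕ) : ℝ := ∑ n ∈ Ioc Y X, (∑ h ∈ A, mu (n + h)) ^ 2

lemma SS_nonneg (Y X : ℕ) (A : Finset ℕ) : 0 ≤ SS Y X A := sum_nonneg fun _ _ => sq_nonneg _

/-- **almost all signs and almost all subsets of the window** -/
theorem main {ε : ℝ} (hε : 0 < ε) (hε1 : ε ≤ 1) : ∃ H₀ : ℕ, ∀ N H : ℕ, H₀ ≤ H → H ≤ N → ∀ Y X : ℕ, Y ≤ X → X ≤ N →
    cnt H (fun A => ¬ |QQ H Y X A - c0 * H * (X - Y)| ≤ ε * (H * N)) ≤ ε * 2 ^ H ∧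
    cnt H (fun A => ¬ |4 * SS Y X A - (SS Y X (Icc 1 H) + c0 * H * (X - Y))| ≤
      ε * (SS Y X (Icc 1 H) + H * N)) ≤ ε * 2 ^ H := by
  obtain ⟨g, hg⟩ : ∃ g : ℝ, g = ε ^ 3 / 64 := ⟨_, rfl⟩
  have hg0 : 0 < g := by rw [hg]; positivity
  have hg1 : g ≤ 1 := by
    rw [hg]
    have : ε ^ 3 ≤ 1 := pow_le_one₀ hε.le hε1
    linarith
  have hδ0 : 0 < g ^ 2 / 5 := by positivity
  have hδ1 : g ^ 2 / 5 ≤ 1 := by nlinarith
  obtain ⟨H₁, h1⟩ := frob hδ0 hδ1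
  obtain ⟨H₂, h2⟩ := diag (κ := ε / 4) (by positivity)
  refine ⟨H₁ + H₂ + 1, fun N H hH hHN Y X hYX hX => ?_⟩
  have hF := h1 N H (by omega) hHN Y X hYX hX
  have hD := h2 N H (by omega) hHN Y X hYX hX
  have hHN0 : (0 : ℝ) < H * N := by
    have a1 : (0 : ℝ) < H := by exact_mod_cast (by omega : 0 < H)
    have a2 : (0 : ℝ) < N := by exact_mod_cast (by omega : 0 < N)
    positivity
  obtain ⟨W, hW⟩ : ∃ W : ℝ, W = (H : ℝ) * N := ⟨_, rfl⟩
  rw [← hW] at hF hD hHN0 ⊢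
  have hF' : ∑ a ∈ Icc 1 H, ∑ b ∈ Icc 1 H, Cr Y X a b ^ 2 ≤ (g * W) ^ 2 := by
    refine hF.trans (le_of_eq ?_)
    ring
  have hcard : ((2 : ℝ) ^ (Icc 1 H).card) = 2 ^ H := by rw [Nat.card_Icc, Nat.add_sub_cancel]
  -- the quadratic form
  have hQ := quad2 (Icc 1 H) (Cr Y X) (Cr_symm Y X)
  rw [hcard] at hQ
  have hQ' : ∑ A ∈ (Icc 1 H).powerset, (∑ a ∈ Icc 1 H, ∑ b ∈ Icc 1 H, sg A a * sg A b * Cr Y X a b -
      ∑ a ∈ Icc 1 H, Cr Y X a a) ^ 2 ≤ 2 ^ H * (2 * (g * W) ^ 2) := by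
    refine hQ.trans ?_
    apply mul_le_mul_of_nonneg_left _ (by positivity)
    linarith
  -- bad sets for a parameter η
  have hP1 : ∀ η : ℝ, ε / 2 ≤ η → cnt H (fun A => ¬ |QQ H Y X A - c0 * H * (X - Y)| ≤ η * W) ≤ ε / 2 * 2 ^ H := by
    intro η hη
    have h3 := cheb' _ (fun A => ¬ |QQ H Y X A - c0 * H * (X - Y)| ≤ η * W) (t := (ε / 4 * W) ^ 2)
      (fun A _ hA => ?_) hQ'
    · have h4 : cnt H (fun A => ¬ |QQ H Y X A - c0 * H * (X - Y)| ≤ η * W) * (ε ^ 2 / 16) ≤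
          2 ^ H * (2 * g ^ 2) := by
        have h5 : 0 < W ^ 2 := by positivity
        refine le_of_mul_le_mul_right ?_ h5
        calc _ = _ := by ring
          _ ≤ _ := h3
          _ = _ := by ring
      have h6 : 2 * g ^ 2 ≤ ε / 2 * (ε ^ 2 / 16) := by
        rw [hg]
        have : ε ^ 6 ≤ ε ^ 3 := pow_le_pow_of_le_one hε.le hε1 (by norm_num)
        nlinarith
      have h7 : (0 : ℝ) < ε ^ 2 / 16 := by positivity
      refine le_of_mul_le_mul_right ?_ h7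
      calc _ ≤ _ := h4
        _ ≤ 2 ^ H * (ε / 2 * (ε ^ 2 / 16)) := mul_le_mul_of_nonneg_left h6 (by positivity)
        _ = _ := by ring
    · unfold QQ at hA
      rw [Q_eq, not_le] at hA
      rw [← sq_abs (∑ a ∈ Icc 1 H, ∑ b ∈ Icc 1 H, sg A a * sg A b * Cr Y X a b - ∑ a ∈ Icc 1 H, Cr Y X a a)]
      apply pow_le_pow_left₀ (by positivity)
      have h8 := abs_sub_abs_le_abs_sub
        (∑ a ∈ Icc 1 H, ∑ b ∈ Icc 1 H, sg A a * sg A b * Cr Y X a b - c0 * H * (X - Y))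
        (∑ a ∈ Icc 1 H, Cr Y X a a - c0 * H * (X - Y))
      rw [sub_sub_sub_cancel_right] at h8
      have h9 : ε / 2 * W ≤ η * W := mul_le_mul_of_nonneg_right hη hHN0.le
      linarith
  refine ⟨(hP1 ε (by linarith)).trans ?_, ?_⟩
  · apply mul_le_mul_of_nonneg_right (by linarith) (by positivity)
  -- second part
  obtain ⟨V, hV⟩ : ∃ V : ℝ, V = SS Y X (Icc 1 H) := ⟨_, rfl⟩
  have hV0 : 0 ≤ V := by rw [hV]; exact SS_nonneg _ _ _
  have hcr := cross (Ioc Y X) (Icc 1 H) (fun a n => mu (n + a)) (fun n => ∑ h ∈ Icc 1 H, mu (n + h))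
    (G := g * W) (by positivity) hF'
  have hV' : ∑ n ∈ Ioc Y X, (∑ h ∈ Icc 1 H, mu (n + h)) ^ 2 = V := by rw [hV]; rfl
  rw [hV'] at hcr
  rw [← hV]
  obtain ⟨c, hc⟩ : ∃ c : ℕ → ℝ, ∀ a, c a = ∑ n ∈ Ioc Y X, (∑ h ∈ Icc 1 H, mu (n + h)) * mu (n + a) :=
    ⟨_, fun _ => rfl⟩
  have hL := lin2 (Icc 1 H) c
  rw [hcard] at hL
  have hL' : ∑ A ∈ (Icc 1 H).powerset, (∑ b ∈ Icc 1 H, sg A b * c b) ^ 2 ≤ 2 ^ H * (V * (g * W)) := by
    rw [hL]
    apply mul_le_mul_of_nonneg_left _ (by positivity)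
    refine le_trans (le_of_eq ?_) hcr
    exact sum_congr rfl fun a _ => by rw [hc]
  have hexp : ∀ A ∈ (Icc 1 H).powerset, 4 * SS Y X A = V + 2 * (∑ b ∈ Icc 1 H, sg A b * c b) + QQ H Y X A := by
    intro A hA
    have e1 : ∑ b ∈ Icc 1 H, sg A b * c b =
        ∑ n ∈ Ioc Y X, (∑ h ∈ Icc 1 H, mu (n + h)) * ∑ h ∈ Icc 1 H, sg A h * mu (n + h) := by
      have : ∀ b ∈ Icc 1 H, sg A b * c b = ∑ n ∈ Ioc Y X, (∑ h ∈ Icc 1 H, mu (n + h)) * (sg A b * mu (n + b)) := by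
        intro b _
        rw [hc, mul_sum]
        exact sum_congr rfl fun n _ => by ring
      rw [sum_congr rfl this, sum_comm]
      exact sum_congr rfl fun n _ => by rw [mul_sum]
    rw [e1, ← hV']
    unfold SS QQ
    rw [mul_sum, mul_sum, ← sum_add_distrib, ← sum_add_distrib]
    apply sum_congr rfl
    intro n _
    have e2 := split_sum hA n
    have e3 : 4 * (∑ h ∈ A, mu (n + h)) ^ 2 = (2 * ∑ h ∈ A, mu (n + h)) ^ 2 := by ring
    rw [e3, e2]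
    ring
  have hP2 : cnt H (fun A => ¬ |∑ b ∈ Icc 1 H, sg A b * c b| ≤ ε / 4 * (V + W)) ≤ ε / 2 * 2 ^ H := by
    have h3 := cheb' _ (fun A => ¬ |∑ b ∈ Icc 1 H, sg A b * c b| ≤ ε / 4 * (V + W))
      (t := (ε / 4 * (V + W)) ^ 2) (fun A _ hA => by
        rw [not_le] at hA
        rw [← sq_abs (∑ b ∈ Icc 1 H, sg A b * c b)]
        exact pow_le_pow_left₀ (by positivity) hA.le 2) hL'
    have h4 : (0 : ℝ) < (ε / 4 * (V + W)) ^ 2 := by positivity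
    refine le_of_mul_le_mul_right (h3.trans ?_) h4
    have h5 : 4 * (V * W) ≤ (V + W) ^ 2 := by nlinarith [sq_nonneg (V - W)]
    have h6 : V * (g * W) ≤ ε / 2 * (ε / 4 * (V + W)) ^ 2 := by
      rw [hg]
      have h7 : (0 : ℝ) ≤ ε ^ 3 := by positivity
      nlinarith [mul_le_mul_of_nonneg_left h5 h7, mul_nonneg h7 (sq_nonneg (V + W))]
    calc (2 : ℝ) ^ H * (V * (g * W)) ≤ 2 ^ H * (ε / 2 * (ε / 4 * (V + W)) ^ 2) :=
          mul_le_mul_of_nonneg_left h6 (by positivity)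
      _ = _ := by ring
  have h3 := cnt_or (H := H) (P := fun A => ¬ |4 * SS Y X A - (V + c0 * H * (X - Y))| ≤ ε * (V + W))
    (Q := fun A => ¬ |QQ H Y X A - c0 * H * (X - Y)| ≤ ε / 2 * W)
    (R := fun A => ¬ |∑ b ∈ Icc 1 H, sg A b * c b| ≤ ε / 4 * (V + W)) (by
      intro A hA hPA
      by_contra hcon
      rw [not_or, not_not, not_not] at hcon
      obtain ⟨h3, h4⟩ := hcon
      apply hPA
      rw [hexp A hA]
      rw [abs_le] at h3 h4 ⊢
      have h5 : 0 ≤ ε * V := mul_nonneg hε.le hV0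
      constructor <;> nlinarith)
  have h5 := hP1 (ε / 2) le_rfl
  linarith

end Pool.Agent.TH606.GC

namespace Pool.Agent.TH606.GC

open Finset
open Pool.Agent.TH893.GS (mu mu_abs c0 sqf_avg)

lemma cnt_mono {H : ℕ} {P Q : Finset ℕ → Prop} (h : ∀ A ∈ (Icc 1 H).powerset, P A → Q A) : cnt H P ≤ cnt H Q := by
  classical
  unfold cnt
  apply Nat.cast_le.2
  apply card_le_card
  intro A hA
  rw [mem_filter] at hA ⊢
  exact ⟨hA.1, h A hA.1 hA.2⟩

lemma cnt_eq (H : ℕ) (P : Finset ℕ → Prop) : (({A : Finset ℕ | A ⊆ Icc 1 H ∧ P A}.ncard : ℕ) : ℝ) = cnt H P := by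
  classical
  unfold cnt
  rw [← Set.ncard_coe_finset]
  congr 2
  ext A
  simp only [Set.mem_setOf_eq, coe_filter, mem_powerset]

lemma exists_good {H : ℕ} {P : Finset ℕ → Prop} (h : cnt H (fun A => ¬ P A) < 2 ^ H) :
    ∃ A ∈ (Icc 1 H).powerset, P A := by
  classical
  by_contra hcon
  push Not at hcon
  have h1 : (Icc 1 H).powerset.filter (fun A => ¬ P A) = (Icc 1 H).powerset := by
    rw [filter_eq_self]
    exact hcon
  unfold cnt at h
  have h2 : (((Icc 1 H).powerset.filter (fun A => ¬ P A)).card : ℝ) = 2 ^ H := by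
    rw [h1, card_powerset, Nat.card_Icc, Nat.add_sub_cancel]
    push_cast
    rfl
  have h3 : cnt H (fun A => ¬ P A) = 2 ^ H := by
    rw [← h2]
    unfold cnt
    congr!
  unfold cnt at h3
  linarith

/-- almost all subsets have about `H / 2` elements -/
lemma conc {ε : ℝ} (hε : 0 < ε) : ∃ H₀ : ℕ, ∀ H : ℕ, H₀ ≤ H →
    cnt H (fun A => ¬ |(A.card : ℝ) - H / 2| ≤ ε * H) ≤ ε * 2 ^ H := by
  refine ⟨⌈1 / (4 * ε ^ 3)⌉₊ + 1, fun H hH => ?_⟩
  have hH0 : (0 : ℝ) < H := by exact_mod_cast (by omega : 0 < H)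
  have hH1 : 1 / (4 * ε ^ 3) ≤ (H : ℝ) := (Nat.le_ceil _).trans (by exact_mod_cast (by omega))
  have hL := lin2 (Icc 1 H) (fun _ => 1)
  rw [Nat.card_Icc, Nat.add_sub_cancel] at hL
  have h3 := cheb' (H := H) _ (fun A => ¬ |(A.card : ℝ) - H / 2| ≤ ε * H)
    (t := (2 * (ε * H)) ^ 2) (fun A hA hPA => ?_) hL.le
  · simp only [one_pow, sum_const, Nat.card_Icc, Nat.add_sub_cancel, nsmul_eq_mul, mul_one] at h3
    have h4 : (0 : ℝ) < 4 * ε ^ 2 * H ^ 2 := by positivity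
    obtain ⟨z, hz⟩ : ∃ z : ℝ, z = cnt H (fun A => ¬ |(A.card : ℝ) - H / 2| ≤ ε * H) := ⟨_, rfl⟩
    rw [← hz] at h3 ⊢
    refine le_of_mul_le_mul_right ?_ h4
    have h5 : 1 ≤ (H : ℝ) * (4 * ε ^ 3) := by
      rw [div_le_iff₀ (by positivity)] at hH1
      exact hH1
    have h6 : (0 : ℝ) ≤ 2 ^ H * (H : ℝ) := by positivity
    have h7 := mul_le_mul_of_nonneg_left h5 h6
    nlinarith
  · rw [not_le] at hPA
    have e1 : (A.card : ℝ) = ∑ h ∈ Icc 1 H, (if h ∈ A then (1 : ℝ) else 0) := by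
      rw [← sum_filter, sum_const, nsmul_eq_mul, mul_one]
      congr 2
      ext h
      rw [mem_filter]
      exact ⟨fun hh => ⟨(mem_powerset.1 hA) hh, hh⟩, fun hh => hh.2⟩
    have e2 : ∑ b ∈ Icc 1 H, sg A b * 1 = 2 * ((A.card : ℝ) - H / 2) := by
      rw [e1]
      have : (H : ℝ) = ∑ h ∈ Icc 1 H, (1 : ℝ) := by
        rw [sum_const, Nat.card_Icc, Nat.add_sub_cancel, nsmul_eq_mul, mul_one]
      rw [mul_sub, mul_div_cancel₀ _ (two_ne_zero), mul_sum]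
      rw [this, ← sum_sub_distrib]
      apply sum_congr rfl
      intro h _
      unfold sg
      split_ifs <;> norm_num
    rw [e2, ← sq_abs (2 * ((A.card : ℝ) - H / 2)), abs_mul, abs_two]
    exact pow_le_pow_left₀ (by positivity) (by linarith) 2

lemma c0_pos : 0 < c0 := by unfold c0; positivity

lemma c0_le : c0 ≤ 1 := by
  unfold c0
  rw [div_le_one (by positivity)]
  nlinarith [Real.pi_gt_three]

/-- mean squares -/
theorem main2 (K : ℝ) {ε : ℝ} (hε : 0 < ε) : ∃ H₀ : ℕ, ∀ H Y X : ℕ, H₀ ≤ H → H ≤ X → Y < X → (X : ℝ) ≤ K * (X - Y) →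
    cnt H (fun A => ¬ |QQ H Y X A / (X - Y) - c0 * H| ≤ ε * H) ≤ ε * 2 ^ H ∧
    cnt H (fun A => ¬ |4 * (SS Y X A / (X - Y)) - (SS Y X (Icc 1 H) / (X - Y) + c0 * H)| ≤
      ε * (SS Y X (Icc 1 H) / (X - Y) + H)) ≤ ε * 2 ^ H := by
  obtain ⟨K', hK'⟩ : ∃ K' : ℝ, K' = max K 1 := ⟨_, rfl⟩
  have hK1 : 1 ≤ K' := by rw [hK']; exact le_max_right _ _
  have hK2 : K ≤ K' := by rw [hK']; exact le_max_left _ _
  obtain ⟨e, he⟩ : ∃ e : ℝ, e = min (ε / K') 1 := ⟨_, rfl⟩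
  have hK0 : 0 < K' := by linarith
  have he0 : 0 < e := by rw [he]; exact lt_min (by positivity) one_pos
  have he1 : e ≤ 1 := by rw [he]; exact min_le_right _ _
  have he2 : e * K' ≤ ε := by
    have : e ≤ ε / K' := by rw [he]; exact min_le_left _ _
    rwa [le_div_iff₀ hK0] at this
  have he3 : e ≤ ε := by nlinarith
  obtain ⟨H₀, h0⟩ := main he0 he1
  refine ⟨H₀, fun H Y X hH hHX hYX hXK => ?_⟩
  obtain ⟨h1, h2⟩ := h0 X H hH hHX Y X hYX.le le_rfl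
  have hD : (0 : ℝ) < (X : ℝ) - Y := by
    have : (Y : ℝ) < X := by exact_mod_cast hYX
    linarith
  have hXK' : (X : ℝ) ≤ K' * (X - Y) := hXK.trans (mul_le_mul_of_nonneg_right hK2 hD.le)
  have hHX : (0 : ℝ) ≤ H := Nat.cast_nonneg _
  have h2H : (0 : ℝ) ≤ 2 ^ H := by positivity
  constructor
  · refine (cnt_mono ?_).trans (h1.trans (mul_le_mul_of_nonneg_right he3 h2H))
    intro A _ hA hcon
    apply hA
    have e1 : QQ H Y X A / (X - Y) - c0 * H = (QQ H Y X A - c0 * H * (X - Y)) / (X - Y) := by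
      field_simp
    rw [e1, abs_div, abs_of_pos hD, div_le_iff₀ hD]
    refine hcon.trans ?_
    have h3 : e * (H * X) ≤ e * (H * (K' * (X - Y))) :=
      mul_le_mul_of_nonneg_left (mul_le_mul_of_nonneg_left hXK' hHX) he0.le
    refine h3.trans ?_
    have h4 : e * K' * (H * (X - Y)) ≤ ε * (H * (X - Y)) := mul_le_mul_of_nonneg_right he2 (by positivity)
    linarith
  · refine (cnt_mono ?_).trans (h2.trans (mul_le_mul_of_nonneg_right he3 h2H))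
    intro A _ hA hcon
    apply hA
    have hS := SS_nonneg Y X (Icc 1 H)
    have e1 : 4 * (SS Y X A / (X - Y)) - (SS Y X (Icc 1 H) / (X - Y) + c0 * H) =
        (4 * SS Y X A - (SS Y X (Icc 1 H) + c0 * H * (X - Y))) / (X - Y) := by
      field_simp
    have e2 : ε * (SS Y X (Icc 1 H) / (X - Y) + H) = (ε * (SS Y X (Icc 1 H) + H * (X - Y))) / (X - Y) := by
      field_simp
    rw [e1, e2, abs_div, abs_of_pos hD]
    apply div_le_div_of_nonneg_right _ hD.le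
    refine hcon.trans ?_
    have h3 : e * (H * X) ≤ e * (H * (K' * (X - Y))) :=
      mul_le_mul_of_nonneg_left (mul_le_mul_of_nonneg_left hXK' hHX) he0.le
    have h4 : e * K' * (H * (X - Y)) ≤ ε * (H * (X - Y)) := mul_le_mul_of_nonneg_right he2 (by positivity)
    have h5 : e * SS Y X (Icc 1 H) ≤ ε * SS Y X (Icc 1 H) := mul_le_mul_of_nonneg_right he3 hS
    linarith

/-- one step of the equivalence -/
lemma step1 {c v H a s e : ℝ} (hc0 : 0 < c) (hc1 : c ≤ 1) (hH : 0 < H) (he : 0 < e) (he1 : e ≤ 1)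
    (h1 : |4 * s - (v + c * H)| ≤ e * (v + H)) (h2 : |a - H / 2| ≤ e * H) (h3 : |v / H - c| ≤ e) :
    |s - c * a| ≤ 4 * e * H := by
  have h4 : |v - c * H| ≤ e * H := by
    have : v / H - c = (v - c * H) / H := by field_simp
    rw [this, abs_div, abs_of_pos hH, div_le_iff₀ hH] at h3
    exact h3
  rw [abs_le] at h1 h2 h4 ⊢
  have h5 : v ≤ 2 * H := by nlinarith
  have h6 : c * (e * H) ≤ e * H := by nlinarith [mul_pos he hH]
  have h7 : e * v ≤ e * (2 * H) := mul_le_mul_of_nonneg_left h5 he.le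
  have h8 : c * (a - H / 2) ≤ c * (e * H) := mul_le_mul_of_nonneg_left h2.2 hc0.le
  have h9 : c * (-(e * H)) ≤ c * (a - H / 2) := mul_le_mul_of_nonneg_left h2.1 hc0.le
  constructor <;> nlinarith

lemma step2 {c v H a s e : ℝ} (hc0 : 0 < c) (hc1 : c ≤ 1) (hH : 0 < H) (hv : 0 ≤ v) (he : 0 < e) (he1 : e ≤ 1 / 2)
    (h1 : |4 * s - (v + c * H)| ≤ e * (v + H)) (h2 : |a - H / 2| ≤ e * H) (h3 : |s - c * a| ≤ e * H) :
    |v / H - c| ≤ 20 * e := by
  have hb : |v - c * H| ≤ e * v + 9 * (e * H) := by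
    rw [abs_le] at h1 h2 h3 ⊢
    have h6 : c * (e * H) ≤ e * H := by nlinarith [mul_pos he hH]
    have h8 : c * (a - H / 2) ≤ c * (e * H) := mul_le_mul_of_nonneg_left h2.2 hc0.le
    have h9 : c * (-(e * H)) ≤ c * (a - H / 2) := mul_le_mul_of_nonneg_left h2.1 hc0.le
    constructor <;> nlinarith
  have h5 : v ≤ 11 * H := by
    have := (abs_le.1 hb).2
    nlinarith [mul_nonneg hv he.le]
  have : v / H - c = (v - c * H) / H := by field_simp
  rw [this, abs_div, abs_of_pos hH, div_le_iff₀ hH]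
  refine hb.trans ?_
  nlinarith [mul_le_mul_of_nonneg_left h5 he.le]

end Pool.Agent.TH606.GC
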